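import Pool.Agent.Helper62.HX.Stm
import Pool.Agent.Helper62.BW.Frame

/-!
# The polynomial part of the square root
-/

set_option autoImplicit false

open Finset Polynomial

namespace Pool.Agent.Helper62.HX

open Pool.Agent.Helper62.BM Pool.Agent.Helper62.BW

section sqrt

variable {R : Type} [CommRing R]

theorem sqrt_step [Nontrivial R] (h : R) (hh : 2 * h = 1) (n : ℕ) (P : R[X]) (hP : P.Monic)
    (hd : P.natDegree = 2 * n) (j : ℕ) (hj : j ≤ n) :
    ∃ G : R[X], G.Monic ∧ G.natDegree = n ∧ ∀ i, 2 * n ≤ i + j → (P - G ^ 2).coeff i = 0 := by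
  induction j with
  | zero =>
    refine ⟨X ^ n, monic_X_pow n, natDegree_X_pow n, fun i hi => ?_⟩
    rw [coeff_sub, ← pow_mul, coeff_X_pow]
    rcases (by omega : i = 2 * n ∨ 2 * n < i) with rfl | h1
    · rw [if_pos (by ring), ← hd, ← leadingCoeff, hP.leadingCoeff, sub_self]
    · rw [if_neg (by omega), coeff_eq_zero_of_natDegree_lt (by omega), sub_zero]
  | succ j ih =>
    obtain ⟨G, hG, hdG, hc⟩ := ih (by omega)
    set c := (P - G ^ 2).coeff (2 * n - j - 1) with hcdef
    have hlt : (C (h * c) * X ^ (n - j - 1) : R[X]).degree < G.degree := by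
      refine lt_of_le_of_lt (degree_C_mul_X_pow_le _ _) ?_
      rw [degree_eq_natDegree hG.ne_zero, hdG]
      exact_mod_cast (by omega : n - j - 1 < n)
    refine ⟨G + C (h * c) * X ^ (n - j - 1), hG.add_of_left hlt, ?_, fun i hi => ?_⟩
    · rw [natDegree_add_eq_left_of_degree_lt hlt, hdG]
    · have h1 : P - (G + C (h * c) * X ^ (n - j - 1)) ^ 2 = (P - G ^ 2) -
          C c * (X ^ (n - j - 1) * G) - C (h * c * (h * c)) * X ^ (2 * (n - j - 1)) := by
        have h2 : (C (2 * h) : R[X]) = 1 := by rw [hh, C_1]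
        rw [map_mul, map_ofNat] at h2
        rw [map_mul, map_mul, map_mul, mul_comm 2 (n - j - 1), pow_mul]
        linear_combination (-(C c * X ^ (n - j - 1) * G)) * h2
      rw [h1, coeff_sub, coeff_sub, coeff_C_mul, coeff_C_mul, coeff_X_pow, coeff_X_pow_mul',
        if_neg (by omega : ¬ i = 2 * (n - j - 1)), mul_zero, sub_zero, if_pos (by omega)]
      rcases (by omega : i = 2 * n - j - 1 ∨ 2 * n ≤ i + j) with rfl | h3
      · have h4 : 2 * n - j - 1 - (n - j - 1) = G.natDegree := by omega
        rw [h4, ← leadingCoeff, hG.leadingCoeff, mul_one, ← hcdef, sub_self]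
      · rw [hc i h3, coeff_eq_zero_of_natDegree_lt (p := G) (by omega), mul_zero, sub_zero]

/-- The polynomial part of the square root. -/
theorem sqrt_exists [Nontrivial R] (h : R) (hh : 2 * h = 1) (n : ℕ) (hn : 1 ≤ n) (P : R[X])
    (hP : P.Monic) (hd : P.natDegree = 2 * n) :
    ∃ G : R[X], G.Monic ∧ G.natDegree = n ∧ (P - G ^ 2).natDegree ≤ n - 1 := by
  obtain ⟨G, hG, hdG, hc⟩ := sqrt_step h hh n P hP hd n le_rfl
  refine ⟨G, hG, hdG, ?_⟩
  rw [natDegree_le_iff_coeff_eq_zero]
  intro i hi
  exact hc i (by omega)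

theorem sqrt_unique [IsDomain R] (h2 : (2 : R) ≠ 0) (n : ℕ) (hn : 1 ≤ n) (P G G' : R[X])
    (hG : G.Monic) (hG' : G'.Monic) (hd : G.natDegree = n) (hd' : G'.natDegree = n)
    (h : (P - G ^ 2).natDegree ≤ n - 1) (h' : (P - G' ^ 2).natDegree ≤ n - 1) : G' = G := by
  by_contra hne
  have h0 : G' - G ≠ 0 := sub_ne_zero.2 hne
  have h1 : (G' + G).coeff n = 2 := by
    rw [coeff_add]
    have e1 : G'.coeff n = 1 := by rw [← hd', ← leadingCoeff, hG'.leadingCoeff]
    have e2 : G.coeff n = 1 := by rw [← hd, ← leadingCoeff, hG.leadingCoeff]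
    rw [e1, e2]
    norm_num
  have h3 : n ≤ (G' + G).natDegree := by
    by_contra hlt
    rw [coeff_eq_zero_of_natDegree_lt (by omega)] at h1
    exact h2 h1.symm
  have h4 : G' + G ≠ 0 := by
    intro h5
    rw [h5, coeff_zero] at h1
    exact h2 h1.symm
  have h5 : (P - G ^ 2) - (P - G' ^ 2) = (G' - G) * (G' + G) := by ring
  have h6 : ((P - G ^ 2) - (P - G' ^ 2)).natDegree ≤ n - 1 :=
    (natDegree_sub_le _ _).trans (max_le h h')
  rw [h5, natDegree_mul h0 h4] at h6
  omega

end sqrt

section span

variable {E : Type} [Field E]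

theorem mem_span_bE (g : ℕ) (G u : E[X]) :
    u ∈ Submodule.span E (Set.range (bE g G)) ↔
      ∃ q r : E[X], q.degree < g ∧ r.degree < g ∧ u = q * G + r := by
  classical
  constructor
  · intro hu
    induction hu using Submodule.span_induction with
    | mem x hx =>
      obtain ⟨l, rfl⟩ := hx
      unfold bE
      split_ifs with h
      · refine ⟨0, X ^ (l : ℕ), by rw [degree_zero]; exact WithBot.bot_lt_coe g, ?_, by ring⟩
        refine lt_of_le_of_lt (degree_X_pow_le _) ?_
        exact_mod_cast h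
      · refine ⟨X ^ ((l : ℕ) - g), 0, ?_, by rw [degree_zero]; exact WithBot.bot_lt_coe g,
          by ring⟩
        refine lt_of_le_of_lt (degree_X_pow_le _) ?_
        have := l.2
        exact_mod_cast (by omega : (l : ℕ) - g < g)
    | zero =>
      exact ⟨0, 0, by rw [degree_zero]; exact WithBot.bot_lt_coe g,
        by rw [degree_zero]; exact WithBot.bot_lt_coe g, by ring⟩
    | add x y _ _ hx hy =>
      obtain ⟨q, r, h1, h2, rfl⟩ := hx
      obtain ⟨q', r', h1', h2', rfl⟩ := hy
      exact ⟨q + q', r + r', lt_of_le_of_lt (degree_add_le _ _) (max_lt h1 h1'),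
        lt_of_le_of_lt (degree_add_le _ _) (max_lt h2 h2'), by ring⟩
    | smul c x _ hx =>
      obtain ⟨q, r, h1, h2, rfl⟩ := hx
      refine ⟨c • q, c • r, lt_of_le_of_lt (degree_smul_le _ _) h1,
        lt_of_le_of_lt (degree_smul_le _ _) h2, ?_⟩
      rw [smul_add, smul_mul_assoc]
  · rintro ⟨q, r, hq, hr, rfl⟩
    have key : ∀ f : E[X], (∀ i, i < g → X ^ i * f ∈ Submodule.span E (Set.range (bE g G))) →
        ∀ s : E[X], s.degree < g → s * f ∈ Submodule.span E (Set.range (bE g G)) := by
      intro f hf s hs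
      rw [← mem_degreeLT, degreeLT_eq_span_X_pow] at hs
      induction hs using Submodule.span_induction with
      | mem x hx =>
        simp only [coe_image, Set.mem_image, Finset.mem_coe, mem_range] at hx
        obtain ⟨i, hi, rfl⟩ := hx
        exact hf i hi
      | zero => rw [zero_mul]; exact Submodule.zero_mem _
      | add x y _ _ hx hy => rw [add_mul]; exact Submodule.add_mem _ hx hy
      | smul c x _ hx => rw [smul_mul_assoc]; exact Submodule.smul_mem _ _ hx
    refine Submodule.add_mem _ (key G (fun i hi => ?_) q hq) ?_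
    · refine Submodule.subset_span ⟨⟨g + i, by omega⟩, ?_⟩
      show (if g + i < g then X ^ (g + i) else X ^ (g + i - g) * G) = _
      rw [if_neg (by omega), Nat.add_sub_cancel_left]
    · have := key 1 (fun i hi => ?_) r hr
      · rwa [mul_one] at this
      · rw [mul_one]
        refine Submodule.subset_span ⟨⟨i, by omega⟩, ?_⟩
        show (if i < g then X ^ i else X ^ (i - g) * G) = _
        rw [if_pos hi]

end span

/-- The curve over a larger ring. -/
theorem sep_up {A k : Type} [CommRing A] [IsDomain A] [Field k] (ψ : A →+* k)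
    (hψ : Function.Injective ψ) (F : A[X][X])
    (h : (F.map (algebraMap A[X] (FractionRing A[X]))).Separable) :
    ((F.map (mapRingHom ψ)).map (algebraMap k[X] (FractionRing k[X]))).Separable := by
  obtain ⟨u, v, r, hr, huv⟩ := sep_clear F h
  rw [Polynomial.map_map]
  refine sep_map _ F u v r huv ?_
  intro h0
  apply hr
  have h1 : Function.Injective (mapRingHom ψ) := Polynomial.map_injective ψ hψ
  have h2 : Function.Injective (algebraMap k[X] (FractionRing k[X])) :=
    IsFractionRing.injective _ _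
  exact h1 (h2 (by rw [map_zero, map_zero]; exact h0))

end Pool.Agent.Helper62.HX
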