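import Pool.Agent.Helper62.HX.Stm
import Pool.Agent.Helper62.BX.Per

/-!
# The periodicity for the families of even degree
-/

set_option autoImplicit false

open Finset Polynomial NumberField IsDedekindDomain

namespace Pool.Agent.Helper62.HX

open Pool.Agent.Helper62.BM Pool.Agent.Helper62.BW Pool.Agent.Helper62.BX

theorem h_Per : H_Per := by
  intro K _ _ r g F φ Γ v hv s t
  have hrd : rd v (membF (F.map (mapRingHom (evs s))) (φ.map (evs s)) t) =
      rd v (membF (F.map (mapRingHom (evs fun i => s i % Ideal.absNorm v.asIdeal)))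
        (φ.map (evs fun i => s i % Ideal.absNorm v.asIdeal)) (t % Ideal.absNorm v.asIdeal)) := by
    unfold rd membF
    rw [Polynomial.map_map, Polynomial.map_map, Polynomial.map_map, Polynomial.map_map,
      coef_mod v hv s t φ]
  unfold GoodE
  rw [avoids_mod v hv s t g φ Γ _ _ hrd]
  unfold GoodOrd
  rw [hrd]

end Pool.Agent.Helper62.HX
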