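import Pool.Agent.Helper62.VX.Main
import Pool.Agent.Helper62.HX.Per
import Pool.Agent.Helper62.HX.Prep
import Pool.Agent.Helper4.HX.W
import Pool.Agent.Helper13.HX.Hor
import Pool.Agent.Helper13.HX.Stab
import Pool.Agent.Helper36.HX.FewG
import Pool.Agent.Helper41.HX.Rank
import Pool.Agent.Helper59.HX.Iso
import Pool.Agent.Helper59.HX.LocN
import Pool.Agent.Helper61.HX.Data
import Pool.Agent.Helper68.HX.QE
import Pool.Agent.Helper72.HX.HW
import Pool.Agent.Helper90.HX.Irr
import Pool.Agent.Helper93.HX.RkN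

/-!
# Assembly: general families of hyperelliptic curves of even degree
-/

set_option autoImplicit false

namespace Pool.Agent.Helper62.HX

open Pool.Agent.Helper62.BM Pool.Agent.Helper62.BW Pool.Agent.Helper62.BX Pool.Agent.Helper62.VX

theorem hData : H_Data :=
  Pool.Agent.Helper61.HX.h_data Pool.Agent.Helper59.HX.h_LocN Pool.Agent.Helper93.HX.h_rkN
    Pool.Agent.Helper13.HX.h_HorN Pool.Agent.Helper13.HX.h_Stab Pool.Agent.Helper68.HX.h_QE

theorem hFewG : H_FewG :=
  Pool.Agent.Helper36.HX.h_FewG Pool.Agent.Helper4.BM.step wNV Pool.Agent.Helper12.BM.frac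
    Pool.Agent.Helper72.HX.h_HWb Pool.Agent.Helper72.HX.h_HWdeg
    (Pool.Agent.Helper59.HX.h_HWiso Pool.Agent.Helper68.HX.h_QE) Pool.Agent.Helper41.HX.h_hwrank

theorem hW : H_W :=
  Pool.Agent.Helper4.HX.h_W hData Pool.Agent.Helper12.BW.w_strong Pool.Agent.Helper90.BW.w_tr
    Pool.Agent.Helper90.HX.h_irr hFewG x_Spread

end Pool.Agent.Helper62.HX
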