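import Pool.Agent.Helper62.VX.Stm

/-!
# Families of hyperelliptic curves of even degree with big monodromy: statements

`y ^ 2 = F(x, t)`, `F` monic in `x` of degree `2 g + 2`; over a ring which contains `1 / 2` one has `F = G ^ 2 + H`, `G` monic
of degree `g + 1`, `deg H ≤ g`. There are two points at infinity, and the forms `u dx / y`, `deg u ≤ 2 g`, without
residues there are those with `u = q G + r`, `deg q, deg r < g`: a space `V` of rank `2 g` with the basis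
`b = (1, x, …, x ^ (g - 1), G, x G, …, x ^ (g - 1) G)`. All the formulas below are checked numerically (`g ≤ 4`).

`V` carries a structure `Dat A g` as in `BW/Stm.lean`, so `W_OkMap`, `W_Strong`, `W_Tr`, `W_Van`, `W_Con`, `W_Ind`, `W_NV`
remain. Horizontal symplectic bivector: `K(x, z) = ∑ Q_(m, n) b_m(x) b_n(z)`,
`(x - z) ^ 2 K = 2 (F(z) - F(x)) + (x - z) (F'(x) + F'(z))`.
-/

set_option autoImplicit false

open Polynomial Matrix Finset Filter NumberField IsDedekindDomain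

namespace Pool.Agent.Helper62.HX

open Pool.Agent.Helper62.BM Pool.Agent.Helper62.BW Pool.Agent.Helper62.BX Pool.Agent.Helper62.VX

section defs

variable {R : Type} [CommRing R]

/-- The basis `1, x, …, x ^ (g - 1), G, x G, …, x ^ (g - 1) G`. -/
noncomputable def bE (g : ℕ) (G : R[X]) (l : Fin (2 * g)) : R[X] :=
  if (l : ℕ) < g then X ^ (l : ℕ) else X ^ ((l : ℕ) - g) * G

/-- The bivector (times two) of `y ^ 2 = G ^ 2 + H` in this basis. -/
noncomputable def QE (g : ℕ) (G H : R[X]) : Matrix (Fin (2 * g)) (Fin (2 * g)) R :=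
  Matrix.of fun m n =>
    if (m : ℕ) < g then
      if (n : ℕ) < g then (((m : ℕ) : R) - ((n : ℕ) : R)) * H.coeff ((m : ℕ) + n + 2)
      else -(2 * ((((n : ℕ) - g + 1 : ℕ) : R) * G.coeff ((m : ℕ) + ((n : ℕ) - g) + 2)))
    else
      if (n : ℕ) < g then 2 * ((((m : ℕ) - g + 1 : ℕ) : R) * G.coeff (((m : ℕ) - g) + n + 2))
      else 0

/-- The functionals `b_l ↦ [x ^ (p (i + 1) - 1)] b_l F ^ ((p - 1) / 2)`. -/
noncomputable def YE (p g : ℕ) (G F : R[X]) : Matrix (Fin g) (Fin (2 * g)) R :=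
  Matrix.of fun i l => (bE g G l * F ^ ((p - 1) / 2)).coeff (p * ((i : ℕ) + 1) - 1)

variable {A : Type} [CommRing A]

/-- `y ^ 2 = G ^ 2 + H` is smooth of genus `g`. -/
def GenE (g : ℕ) (G H : A[X][X]) : Prop :=
  G.Monic ∧ G.natDegree = g + 1 ∧ H.natDegree ≤ g ∧
    ((G ^ 2 + H).map (algebraMap A[X] (FractionRing A[X]))).Separable

/-- `2 (P_l F + S_l F') = W x ^ l ∂F / ∂t` for all `l < N` (for `N = 2 g` this is `Rel`). -/
def RelN (N : ℕ) (F : A[X][X]) (W : A[X]) (P S : Fin N → A[X][X]) : Prop :=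
  ∀ l : Fin N, (P l).natDegree < N ∧ (S l).natDegree ≤ N ∧
    2 * (P l * F + S l * derivative F) = Polynomial.C W * X ^ (l : ℕ) * dt F

/-- The Gauss-Manin connection on `V`: `2 (P_l F + S_l F') = W b_l ∂F / ∂t` and
`W ∂b_l / ∂t - P_l - 2 ∂S_l / ∂x = ∑ M_(m, l) b_m`. -/
def RelE (g : ℕ) (G H : A[X][X]) (W : A[X]) (P S : Fin (2 * g) → A[X][X])
    (M : Matrix (Fin (2 * g)) (Fin (2 * g)) A[X]) : Prop :=
  ∀ l : Fin (2 * g), (P l).natDegree ≤ 2 * g ∧ (S l).natDegree ≤ 2 * g + 1 ∧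
    2 * (P l * (G ^ 2 + H) + S l * derivative (G ^ 2 + H)) =
      Polynomial.C W * bE g G l * dt (G ^ 2 + H) ∧
    Polynomial.C W * dt (bE g G l) - P l - 2 * derivative (S l) =
      ∑ m, Polynomial.C (M m l) * bE g G m

/-- The data of the family. -/
def FamE (g : ℕ) (G H : A[X][X]) (D : Dat A g) (P S : Fin (2 * g) → A[X][X]) : Prop :=
  GenE g G H ∧ RelE g G H D.W P S D.M ∧ D.Q = QE g G H

end defs

/-! ## The curves -/

/-- H1. `V_Loc` (helper90's `VX/Loc.lean`) for any degree `N + 1` in place of `2 g + 1`, all `l < N`. -/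
def H_LocN : Prop :=
  ∀ (A : Type) [CommRing A] [IsDomain A] [CharZero A] (N : ℕ), 1 ≤ N → ∀ (F : A[X][X]),
    F.Monic → F.natDegree = N + 1 → (F.map (algebraMap A[X] (FractionRing A[X]))).Separable →
    ∀ (t₀ x₀ : A) (f₁ : A[X]), Node1 F t₀ x₀ f₁ →
    ∃ (w : A[X]) (P S : Fin N → A[X][X]), w.eval t₀ ≠ 0 ∧
      RelN N F ((X - Polynomial.C t₀) * (2 * w)) P S

/-- H2. As `V_Rk` (helper93's `VX/Rk.lean`) for any degree, for one relation with any `u`: at `t₀`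
`P = - λ (2 f₁ + (x - x₀) f₁')`, `S = λ (x - x₀) f₁`, `P(x₀, t₀) = ν w(t₀) u(x₀, t₀)`, so
`2 f₁(x₀) (P + 2 S')(t₀) = - ν w(t₀) u(x₀, t₀) (x - x₀) f₁'`. The thickness `ν` depends only on `F`, `t₀`, `x₀`. -/
def H_RkN : Prop :=
  ∀ (A : Type) [CommRing A] [IsDomain A] [CharZero A] (N : ℕ), 1 ≤ N → ∀ (F : A[X][X]),
    F.Monic → F.natDegree = N + 1 → (F.map (algebraMap A[X] (FractionRing A[X]))).Separable →
    ∀ (t₀ x₀ : A) (f₁ : A[X]), Node1 F t₀ x₀ f₁ → ∃ ν : ℕ, 0 < ν ∧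
    ∀ (w : A[X]) (u P S : A[X][X]), P.natDegree < N → S.natDegree ≤ N →
    2 * (P * F + S * derivative F) =
      Polynomial.C ((X - Polynomial.C t₀) * (2 * w)) * u * dt F →
    Polynomial.C (2 * f₁.eval x₀) * (P + 2 * derivative S).map (evalRingHom t₀) =
      -(Polynomial.C ((ν : A) * w.eval t₀ * (u.map (evalRingHom t₀)).eval x₀) *
        ((X - Polynomial.C x₀) * derivative f₁))

/-- H3. `W_Hor` (helper18's `BW/Hor.lean`) for any degree `N + 1`. -/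
def H_HorN : Prop :=
  ∀ (A : Type) [CommRing A] [IsDomain A], (2 : A) ≠ 0 → ∀ (N : ℕ), 1 ≤ N → ∀ (F : A[X][X]),
    F.Monic → F.natDegree = N + 1 → (F.map (algebraMap A[X] (FractionRing A[X]))).Separable →
    ∀ (W : A[X]) (P S : Fin N → A[X][X]), RelN N F W P S →
    ∀ (M : Matrix (Fin N) (Fin N) A[X]),
    (∀ m l, M m l = -(P l + 2 * derivative (S l)).coeff m) →
    W • (Q2F N F).map (fun q => derivative q) + M * Q2F N F + Q2F N F * Mᵀ = 0

/-- H4. `V` is stable. Proof. Let `[·]` be the coefficient of `x ^ (-1)` in the expansion at infinity. From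
`2 (P F + S F') = W (q G + r) (2 G G_t + H_t)`, `F' = 2 G G' + H'`, divide by `2 G ^ 3` and compare `[·]` (by the degrees all
the terms with `H`, `H'`, `H_t`, `r` have no coefficient at `x ^ (-1)`): `[(P + 2 S G' / G) / G] = W [q G_t / G]`, and
`0 = [2 (S / G)'] = [2 S' / G - 2 S G' / G ^ 2]`, so `[(P + 2 S') / G] = W [q G_t / G] = W [u_t / G]`. For `deg v ≤ 2 g` one has
`v = q G + r` with `deg q < g`, `deg r ≤ g`, and `[v / G]` is the coefficient of `x ^ g` in `r`. -/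
def H_Stab : Prop :=
  ∀ (A : Type) [CommRing A] [IsDomain A], (2 : A) ≠ 0 → ∀ (g : ℕ), 1 ≤ g → ∀ (G H : A[X][X]),
    G.Monic → G.natDegree = g + 1 → H.natDegree ≤ g → ∀ (W : A[X]) (u P S : A[X][X]),
    (∃ c : Fin (2 * g) → A[X], u = ∑ m, Polynomial.C (c m) * bE g G m) →
    P.natDegree ≤ 2 * g → S.natDegree ≤ 2 * g + 1 →
    2 * (P * (G ^ 2 + H) + S * derivative (G ^ 2 + H)) = Polynomial.C W * u * dt (G ^ 2 + H) →
    ∃ c : Fin (2 * g) → A[X],
      Polynomial.C W * dt u - P - 2 * derivative S = ∑ m, Polynomial.C (c m) * bE g G m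

/-- H5. The bivector in the two bases: with `B_(i, l)` = the coefficient of `x ^ i` in `b_l`, `B QE Bᵀ = Q2F`. Proof:
`K` for `G ^ 2`: with `D = (G(x) - G(z)) / (x - z)`, `α(x, z) = (G'(x) - D) / (x - z) = ∑ (a + 1) G_(a + b + 2) x ^ a z ^ b` it is
`2 (G(x) α(x, z) - G(z) α(z, x))`; for `H` it is `∑ (a - b) H_(a + b + 2) x ^ a z ^ b`. And the determinants: `QE` is
antitriangular in blocks, the block `lo, hi` has zeros for `m + n > g - 1` (`n` counted in the block) and the entries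
`- 2 (n + 1)` for `m + n = g - 1`. -/
def H_QE : Prop :=
  (∀ (R : Type) [CommRing R] (g : ℕ) (G H : R[X]), 1 ≤ g → G.Monic → G.natDegree = g + 1 →
    H.natDegree ≤ g → ∀ i j : Fin (2 * g + 1),
    ∑ m, ∑ n, (bE g G m).coeff i * QE g G H m n * (bE g G n).coeff j =
      (((i : ℕ) : R) - ((j : ℕ) : R)) * (G ^ 2 + H).coeff ((i : ℕ) + j + 2)) ∧
  (∀ (A : Type) [CommRing A] [IsDomain A] [CharZero A] (g : ℕ), 1 ≤ g → ∀ (G H : A[X][X]),
    G.Monic → G.natDegree = g + 1 → H.natDegree ≤ g → (QE g G H)ᵀ = -QE g G H ∧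
    (QE g G H).submatrix (hi : Fin g → Fin (2 * g)) hi = 0 ∧
    ∃ δ δ' : A, δ ≠ 0 ∧ δ' ≠ 0 ∧ (QE g G H).det = Polynomial.C δ ∧
      ((QE g G H).submatrix (lo : Fin g → Fin (2 * g)) hi).det = Polynomial.C δ')

/-- H6. The data. From `H_LocN`, `H_RkN`, `H_HorN` (with `N = 2 g + 1`), `H_Stab`, `H_QE`: `P_(b_l) = ∑ B_(i, l) P_i` and so on;
`Mᴺ B + W B' = B M` (`B` is injective), so `W QE' + M QE + QE Mᵀ = 0` follows from `H_HorN`; `e_l = b_l(x₀, t₀)`,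
`μ = 2 f₁(x₀)`, `κ = ν w(t₀)`; `∑_m (∑_n QE_(m, n)(t₀) e_n) b_m(x, t₀) = K(x, x₀) = (x - x₀) f₁'` (as `W_Qe`, for `F = G ^ 2 + H`). -/
def H_Data : Prop :=
  ∀ (A : Type) [CommRing A] [IsDomain A] [CharZero A] (g : ℕ), 1 ≤ g → ∀ (G H : A[X][X]),
    GenE g G H → ∀ (t₀ x₀ : A) (f₁ : A[X]), Node1 (G ^ 2 + H) t₀ x₀ f₁ →
    ∃ (D : Dat A g) (P S : Fin (2 * g) → A[X][X]), FamE g G H D P S ∧ D.Ok

/-- H7. As `W_HWb`. -/
def H_HWb : Prop :=
  ∀ (R : Type) [CommRing R] (p : ℕ) [Fact p.Prime] [CharP R p], p ≠ 2 → ∀ (g : ℕ)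
    (G H : R[X][X]) (W : R[X]) (P S : Fin (2 * g) → R[X][X])
    (M : Matrix (Fin (2 * g)) (Fin (2 * g)) R[X]), RelE g G H W P S M →
    ∀ (i : Fin g) (l : Fin (2 * g)),
    W * derivative (YE p g G (G ^ 2 + H) i l) = ∑ m, YE p g G (G ^ 2 + H) i m * M m l

/-- H8. As `W_HWdeg`: `F ^ ((p - 1) / 2)` has degree at most `T (p - 1)` in `t`. -/
def H_HWdeg : Prop :=
  ∀ (R : Type) [CommRing R] (p g T : ℕ) (G H : R[X][X]), 1 ≤ p →
    (∀ i, (G.coeff i).natDegree ≤ T) → (∀ i, (H.coeff i).natDegree ≤ T) →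
    ∀ (i : Fin g) (l : Fin (2 * g)), (YE p g G (G ^ 2 + H) i l).natDegree ≤ T * p

/-- H9. Isotropy. `L_HWiso` for any degree (the proof: `K(x, z) F(x) ^ q F(z) ^ q`, `q = (p - 1) / 2`, is a sum of derivatives
in `x` and in `z`), then `H_QE`. -/
def H_HWiso : Prop :=
  ∀ (R : Type) [CommRing R] (p : ℕ) [Fact p.Prime] [CharP R p], p ≠ 2 → ∀ (g : ℕ) (G H : R[X]),
    1 ≤ g → G.Monic → G.natDegree = g + 1 → H.natDegree ≤ g →
    YE p g G (G ^ 2 + H) * QE g G H * (YE p g G (G ^ 2 + H))ᵀ = 0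

/-- H10. The functionals are linearly independent. Proof. If `∑ c_i λ_i = 0` on `V`, `i < g`, then
`∑ c_i λ_i = κ λ_g` on all `u`, `deg u ≤ 2 g`, where `λ_g(u) = [x ^ (p (g + 1) - 1)] u F ^ ((p - 1) / 2)` (it is the residue of `u / y`:
zero on `b_l` and one on `x ^ g`). Then as `L_HWrank` (helper18's `BL/HR.lean`) with `g + 1` functionals and degree
`2 g + 2`: `C = ∑ c_i x ^ (- p (i + 1))`, `F ^ q C = R + O(x ^ (- 2 g - 2))`, `2 F R' + F' R = 0`, so `R = 0`; the first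
`c_i ≠ 0` gives `(p - 1) (g + 1) - p (i + 1) ≤ - 2 g - 2`, a contradiction. -/
def H_HWrank : Prop :=
  ∀ (F : Type) [Field F] (p : ℕ) [Fact p.Prime] [CharP F p] (g : ℕ) (G H : F[X]), 1 ≤ g →
    2 * g + 2 < p → G.Monic → G.natDegree = g + 1 → H.natDegree ≤ g → (G ^ 2 + H).Separable →
    ∀ c : Fin g → F, c ᵥ* YE p g G (G ^ 2 + H) = 0 → c = 0

/-! ## The theorems -/

/-- H11. As `W_FewG` (helper62's `BW/Few.lean`, `BW/Frame.lean`), from `S_Step`, `W_NV`, `S_Frac`, `H_HWb`, `H_HWdeg`,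
`H_HWiso`, `H_HWrank`. -/
def H_FewG : Prop :=
  ∀ (g : ℕ), 1 ≤ g → ∀ (A : Type) [CommRing A] [IsDomain A] [CharZero A] [Countable A]
    (G H : A[X][X]) (D : Dat A g) (P S : Fin (2 * g) → A[X][X]), FamE g G H D P S → D.Ok →
    (D.map (algebraMap A (FractionRing A))).Strong →
    ∀ Γ : MvPolynomial (Fin g × Fin g) A[X], Γ ≠ 0 →
    ∀ ε : ℝ, 0 < ε → ∃ (p₀ : ℕ) (a₀ : A), a₀ ≠ 0 ∧
      ∀ (p : ℕ) [Fact p.Prime] (k : Type) [Field k] [CharP k p] (φ : A →+* k), p₀ ≤ p →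
      φ a₀ ≠ 0 → ∀ T : Finset k, (∀ t ∈ T, t ^ p = t ∧
        MvPolynomial.eval₂ ((evalRingHom t).comp (mapRingHom φ)) (fun s : Fin g × Fin g =>
          (Yh p g g ((G ^ 2 + H).map (mapRingHom φ)) s.1 s.2).eval t) Γ = 0) →
        (T.card : ℝ) ≤ ε * p

/-- The Gauss-Manin connection on the forms `u dx / y`, `u = q G + r`, `deg q, deg r < g`, is irreducible over all
algebraic extensions `E` of `k(t)`: `∇ u = u' - a / 2 - ∂b / ∂x` if `a F + b ∂F / ∂x = u ∂F / ∂t`,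
`deg a ≤ 2 g`, `deg b ≤ 2 g + 1`. -/
def IrrE (k : Type) [Field k] (g : ℕ) (G H : k[X][X]) : Prop :=
  ∀ (E : Type) [Field E] [Algebra (KX k) E] [Algebra.IsAlgebraic (KX k) E] (δ : Der E),
    (∀ q : k[X], δ (algebraMap (KX k) E (ι k q)) = algebraMap (KX k) E (ι k (derivative q))) →
    ∀ W : Submodule E E[X],
    W ≤ Submodule.span E (Set.range (bE g (G.map ((algebraMap (KX k) E).comp (ι k))))) →
    (∀ u ∈ W, ∀ a b : E[X], a.natDegree ≤ 2 * g → b.natDegree ≤ 2 * g + 1 →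
      a * (G ^ 2 + H).map ((algebraMap (KX k) E).comp (ι k)) +
        b * derivative ((G ^ 2 + H).map ((algebraMap (KX k) E).comp (ι k))) =
        u * (dt (G ^ 2 + H)).map ((algebraMap (KX k) E).comp (ι k)) →
      dE δ u - Polynomial.C 2⁻¹ * a - derivative b ∈ W) → W = ⊥ ∨
        W = Submodule.span E (Set.range (bE g (G.map ((algebraMap (KX k) E).comp (ι k)))))

/-- H12. As `W_Irr` (helper90's `BW/Irr.lean`). -/
def H_Irr : Prop :=
  ∀ (k : Type) [Field k] [CharZero k] (g : ℕ), 1 ≤ g → ∀ (G H : k[X][X]) (D : Dat k g)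
    (P S : Fin (2 * g) → k[X][X]), FamE g G H D P S → D.Ok → IrrE k g G H → Irr k D.B

/-- As `GoodW`, degree `2 g + 2`. -/
def GoodE {K : Type} [Field K] [NumberField K] {r : ℕ} (g : ℕ) (F : (Rp K r)[X][X])
    (φ : (Rp K r)[X]) (Γ : MvPolynomial (Fin g × Fin g) (Rp K r)[X])
    (v : HeightOneSpectrum (𝓞 K)) (s : Fin r → ℕ) (t : ℕ) : Prop :=
  GoodOrd g (2 * g + 2) (membF (F.map (mapRingHom (evs s))) (φ.map (evs s)) t) v ∧
    Avoids g (MvPolynomial.map (mapRingHom (evs s)) Γ) ((φ.map (evs s)).eval (t : 𝓞 K))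
      (membF (F.map (mapRingHom (evs s))) (φ.map (evs s)) t) v

/-- H13. As `V_W` (helper13's `VX/W.lean`), from `H_Data`, `W_Strong`, `W_Tr`, `H_Irr`, `H_FewG`, `X_Spread`; the ring `A` is
generated over `Rp K r` by `1 / 2`, the coefficients of `G`, `H`, and `t₀`, `x₀` (it contains the coefficients of `f₁`). -/
def H_W : Prop :=
  ∀ (K : Type) [Field K] [NumberField K] (r g : ℕ), 1 ≤ g → ∀ (F : (Rp K r)[X][X])
    (φ : (Rp K r)[X]), F.Monic → F.natDegree = 2 * g + 2 → ∀ (G H : (Cl K r)[X][X]),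
    F.map (mapRingHom (algebraMap (Rp K r) (Cl K r))) = G ^ 2 + H → GenE g G H →
    (∃ (t₀ x₀ : Cl K r) (f₁ : (Cl K r)[X]), Node1 (G ^ 2 + H) t₀ x₀ f₁) →
    IrrE (Cl K r) g G H → 1 ≤ φ.natDegree →
    ∀ Γ : MvPolynomial (Fin g × Fin g) (Rp K r)[X], Γ ≠ 0 →
    FewR (fun _ => True) (GoodE g F φ Γ)

/-- H14. The periodicity, as `X_Per`. -/
def H_Per : Prop :=
  ∀ (K : Type) [Field K] [NumberField K] (r g : ℕ) (F : (Rp K r)[X][X]) (φ : (Rp K r)[X])
    (Γ : MvPolynomial (Fin g × Fin g) (Rp K r)[X]), Per (GoodE g F φ Γ)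

end Pool.Agent.Helper62.HX
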